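import Pool.Agent.W942.Fb3
import Pool.Agent.W942.Fb4
import Pool.Agent.W942.Fb5

/-!
A robust form of the real tau-conjecture for arithmetic formulas of arbitrary depth, and its
exponential failure for straight-line programs.
-/

open Finset MeasureTheory Polynomial
open scoped ENNReal

namespace Pool.Agent.Results.MP_97f157_lc.FormulaBalance

open Pool.Agent.W942.Ta Pool.Agent.W942.Fb

/-- An arithmetic formula in one variable: a binary tree whose leaves are monomials `c x ^ e` with
a nonzero real constant `c` (of any sign) and any exponent `e`, and whose inner nodes are additions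
and multiplications. -/
inductive Formula : Type
  | leaf (c : ℝ) (hc : c ≠ 0) (e : ℕ) : Formula
  | add (a b : Formula) : Formula
  | mul (a b : Formula) : Formula

/-- the polynomial computed by the formula -/
noncomputable def poly : Formula → ℝ[X]
  | .leaf c _ e => C c * X ^ e
  | .add a b => poly a + poly b
  | .mul a b => poly a * poly b

/-- the absolute version: the formula evaluated with every leaf `c x ^ e` replaced by its absolute
value -/
noncomputable def absVersion : Formula → ℝ → ℝ
  | .leaf c _ e, x => |c * x ^ e|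
  | .add a b, x => absVersion a x + absVersion b x
  | .mul a b, x => absVersion a x * absVersion b x

/-- number of leaves -/
def leaves : Formula → ℕ
  | .leaf _ _ _ => 1
  | .add a b => leaves a + leaves b
  | .mul a b => leaves a + leaves b

/-- largest number of additions on a path from the root to a leaf -/
def addDepth : Formula → ℕ
  | .leaf _ _ _ => 0
  | .add a b => max (addDepth a) (addDepth b) + 1
  | .mul a b => max (addDepth a) (addDepth b)

/-- the nonzero real `x` with `F(x) = y W(x)` -/
def levelSet (f : Formula) (y : ℝ) : Set ℝ :=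
  {x : ℝ | x ≠ 0 ∧ (poly f).eval x = y * absVersion f x}

/-- the formula on the positive half-line -/
noncomputable def toPos : Formula → Fm
  | .leaf c hc e => .leaf c hc e
  | .add a b => .add (toPos a) (toPos b)
  | .mul a b => .mul (toPos a) (toPos b)

/-- the formula on the negative half-line -/
noncomputable def toNeg : Formula → Fm
  | .leaf c hc e => .leaf (c * (-1) ^ e) (mul_ne_zero hc (pow_ne_zero _ (by norm_num))) e
  | .add a b => .add (toNeg a) (toNeg b)
  | .mul a b => .mul (toNeg a) (toNeg b)

theorem sz_toPos (f : Formula) : (toPos f).sz = leaves f := by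
  induction f with
  | leaf c hc e => rfl
  | add a b iha ihb => simp only [toPos, Fm.sz, leaves, iha, ihb]
  | mul a b iha ihb => simp only [toPos, Fm.sz, leaves, iha, ihb]

theorem sz_toNeg (f : Formula) : (toNeg f).sz = leaves f := by
  induction f with
  | leaf c hc e => rfl
  | add a b iha ihb => simp only [toNeg, Fm.sz, leaves, iha, ihb]
  | mul a b iha ihb => simp only [toNeg, Fm.sz, leaves, iha, ihb]

theorem ad_toPos (f : Formula) : (toPos f).ad = addDepth f := by
  induction f with
  | leaf c hc e => rfl
  | add a b iha ihb => simp only [toPos, Fm.ad, addDepth, iha, ihb]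
  | mul a b iha ihb => simp only [toPos, Fm.ad, addDepth, iha, ihb]

theorem ad_toNeg (f : Formula) : (toNeg f).ad = addDepth f := by
  induction f with
  | leaf c hc e => rfl
  | add a b iha ihb => simp only [toNeg, Fm.ad, addDepth, iha, ihb]
  | mul a b iha ihb => simp only [toNeg, Fm.ad, addDepth, iha, ihb]

theorem addDepth_lt (f : Formula) : addDepth f < leaves f := by
  have hl : ∀ f, 1 ≤ leaves f := by
    intro f
    induction f with
    | leaf c hc e => exact le_rfl
    | add a b iha ihb => simp only [leaves]; omega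
    | mul a b iha ihb => simp only [leaves]; omega
  induction f with
  | leaf c hc e => simp only [addDepth, leaves]; omega
  | add a b iha ihb =>
    have h1 := hl a
    have h2 := hl b
    simp only [addDepth, leaves]; omega
  | mul a b iha ihb =>
    have h1 := hl a
    have h2 := hl b
    simp only [addDepth, leaves]; omega

theorem pow_eq_exp {x : ℝ} (hx : 0 < x) (e : ℕ) : x ^ e = Real.exp (e * Real.log x) := by
  rw [Real.exp_nat_mul, Real.exp_log hx]

theorem val_toPos (f : Formula) {x : ℝ} (hx : 0 < x) :
    (poly f).eval x = (toPos f).val (Real.log x) ∧ absVersion f x = (toPos f).wt (Real.log x) := by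
  induction f with
  | leaf c hc e =>
    simp only [poly, toPos, Fm.val, Fm.wt, absVersion, eval_mul, eval_C, eval_pow, eval_X]
    rw [abs_mul, abs_of_pos (pow_pos hx e), pow_eq_exp hx]
    exact ⟨rfl, rfl⟩
  | add a b iha ihb =>
    simp only [poly, toPos, Fm.val, Fm.wt, absVersion, eval_add, iha.1, ihb.1, iha.2, ihb.2,
      and_self]
  | mul a b iha ihb =>
    simp only [poly, toPos, Fm.val, Fm.wt, absVersion, eval_mul, iha.1, ihb.1, iha.2, ihb.2,
      and_self]

theorem val_toNeg (f : Formula) {x : ℝ} (hx : 0 < x) :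
    (poly f).eval (-x) = (toNeg f).val (Real.log x) ∧
      absVersion f (-x) = (toNeg f).wt (Real.log x) := by
  induction f with
  | leaf c hc e =>
    simp only [poly, toNeg, Fm.val, Fm.wt, absVersion, eval_mul, eval_C, eval_pow, eval_X]
    rw [neg_pow, abs_mul, abs_mul, abs_mul, abs_of_pos (pow_pos hx e), pow_eq_exp hx]
    constructor <;> ring
  | add a b iha ihb =>
    simp only [poly, toNeg, Fm.val, Fm.wt, absVersion, eval_add, iha.1, ihb.1, iha.2, ihb.2,
      and_self]
  | mul a b iha ihb =>
    simp only [poly, toNeg, Fm.val, Fm.wt, absVersion, eval_mul, iha.1, ihb.1, iha.2, ihb.2,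
      and_self]

theorem absVersion_pos (f : Formula) (x : ℝ) (hx : x ≠ 0) : 0 < absVersion f x := by
  induction f with
  | leaf c hc e => exact abs_pos.mpr (mul_ne_zero hc (pow_ne_zero _ hx))
  | add a b iha ihb => simp only [absVersion]; linarith
  | mul a b iha ihb => simp only [absVersion]; exact mul_pos iha ihb

theorem vr_pos (f : Formula) (N : ℕ) (X : ℕ → ℝ) (hX : Monotone X) (hp : ∀ r, 0 < X r) :
    vr N (fun r => (poly f).eval (X r) / absVersion f (X r)) ≤
      ((6 * addDepth f * leaves f ^ 2 : ℕ) : ℝ) := by
  have h := vr_rt (toPos f) N (U := fun r => Real.log (X r))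
    (fun a b hab => Real.log_le_log (hp a) (hX hab))
  rw [sz_toPos, ad_toPos] at h
  push_cast
  refine le_trans (le_of_eq ?_) h
  congr 1
  funext r
  rw [(val_toPos f (hp r)).1, (val_toPos f (hp r)).2]
  rfl

theorem vr_neg (f : Formula) (N : ℕ) (X : ℕ → ℝ) (hX : Monotone X) (hp : ∀ r, 0 < X r) :
    vr N (fun r => (poly f).eval (-X r) / absVersion f (-X r)) ≤
      ((6 * addDepth f * leaves f ^ 2 : ℕ) : ℝ) := by
  have h := vr_rt (toNeg f) N (U := fun r => Real.log (X r))
    (fun a b hab => Real.log_le_log (hp a) (hX hab))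
  rw [sz_toNeg, ad_toNeg] at h
  push_cast
  refine le_trans (le_of_eq ?_) h
  congr 1
  funext r
  rw [(val_toNeg f (hp r)).1, (val_toNeg f (hp r)).2]
  rfl

/-- **Formulas.** Let `F` be the polynomial computed by an arithmetic formula with `s` leaves and at
most `d` additions on each path, and `W` its absolute version. Then `F / W` has total variation at
most `6 d s²` on each open half-line; the number of nonzero real `x` with `F(x) = y W(x)` has
integral at most `12 d s²` over all levels `y`, and it is at most `12 d s² / ε` for some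
`0 < y < ε`; and there are at most `3 d s² / δ` consecutive sign alternations of `F` at points where
`|F| ≥ δ W`. Here `d < s`.

**Straight-line programs.** For every `k` there are positive constants `c₀, c₁, …` such that with
`A₀ = x`, `B₀ = 1`, `A_(j+1) = A_j A_j + B_j B_j`, `B_(j+1) = c_j (A_j B_j)`, the polynomial
`A_k - B_k` has `2 ^ k` consecutive sign alternations at points where its absolute value is at least
half of `A_k + B_k`. -/
theorem result :
    (∀ f : Formula, addDepth f < leaves f ∧
      eVariationOn (fun x => (poly f).eval x / absVersion f x) (Set.Ioi 0) ≤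
        ((6 * addDepth f * leaves f ^ 2 : ℕ) : ℝ≥0∞) ∧
      eVariationOn (fun x => (poly f).eval x / absVersion f x) (Set.Iio 0) ≤
        ((6 * addDepth f * leaves f ^ 2 : ℕ) : ℝ≥0∞) ∧
      ∫⁻ y, (((levelSet f y).encard : ℕ∞) : ℝ≥0∞) ≤
        ((12 * addDepth f * leaves f ^ 2 : ℕ) : ℝ≥0∞) ∧
      (∀ ε : ℝ, 0 < ε → ∃ y : ℝ, 0 < y ∧ y < ε ∧ (levelSet f y).Finite ∧
        ((levelSet f y).ncard : ℝ) ≤ 12 * addDepth f * leaves f ^ 2 / ε) ∧
      (∀ δ : ℝ, 0 < δ → ∀ (N : ℕ) (x : ℕ → ℝ), 0 < x 0 → (∀ r < N, x r < x (r + 1)) →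
        (∀ r < N, (poly f).eval (x r) * (poly f).eval (x (r + 1)) < 0) →
        (∀ r ≤ N, δ * absVersion f (x r) ≤ |(poly f).eval (x r)|) →
        (N : ℝ) ≤ 3 * addDepth f * leaves f ^ 2 / δ)) ∧
    (∀ k : ℕ, ∃ c : ℕ → ℝ, (∀ j, 0 < c j) ∧ ∃ x : ℕ → ℝ, 0 < x 0 ∧
      (∀ r < 2 ^ k, x r < x (r + 1)) ∧
      (∀ r < 2 ^ k, ((AB c k (x r)).1 - (AB c k (x r)).2) *
        ((AB c k (x (r + 1))).1 - (AB c k (x (r + 1))).2) < 0) ∧
      ∀ r ≤ 2 ^ k, 1 / 2 * ((AB c k (x r)).1 + (AB c k (x r)).2) ≤
        |(AB c k (x r)).1 - (AB c k (x r)).2|) := by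
  refine ⟨fun f => ?_, slp_alternations⟩
  have h1 := eVar_pos (F := fun x => (poly f).eval x) (W := absVersion f) (vr_pos f)
  have h2 := eVar_neg (F := fun x => (poly f).eval x) (W := absVersion f) (vr_neg f)
  have h3 := lint_roots (absVersion_pos f) h1 h2
  have e : 2 * (6 * addDepth f * leaves f ^ 2) = 12 * addDepth f * leaves f ^ 2 := by ring
  rw [e] at h3
  refine ⟨addDepth_lt f, h1, h2, h3, ?_, ?_⟩
  · intro ε hε
    obtain ⟨y, hy, hf, hn⟩ := exists_level h3 hε
    refine ⟨y, hy.1, hy.2, hf, ?_⟩
    push_cast at hn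
    exact hn
  · intro δ hδ N x hx0 hx hs hr
    have h := robust (F := fun x => (poly f).eval x) (W := absVersion f) (absVersion_pos f)
      (vr_pos f) N x hx0 hx hs hr
    push_cast at h
    rw [le_div_iff₀ hδ]
    linarith

end Pool.Agent.Results.MP_97f157_lc.FormulaBalance
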