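import Pool.Agent.W942.ToR

/-!
# The real tau-conjecture when only the outer cancellation is limited

Let `F = ∑ i < k, ∏ j < m, f i j` with arbitrary real polynomials `f i j` with at most `t` monomials
each, and let `prodAt f i x` be the value of the `i`-th product at `x`. The cancellation inside the
polynomials `f i j` is not restricted; the sum of the `k` products is compared with the Euclidean
length `len f x` of the vector of the products, and with its parts `posPart f x` (the sum of the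
positive products at `x`) and `negPart f x` (minus the sum of the negative products at `x`).
-/

set_option autoImplicit false

namespace Pool.Agent.Results.MP_97f157_lc.OuterBalance

open Polynomial MeasureTheory
open scoped ENNReal

/-- The value of the `i`-th product at `x`. -/
noncomputable def prodAt {k m : ℕ} (f : Fin k → Fin m → ℝ[X]) (i : Fin k) (x : ℝ) : ℝ :=
  ∏ j, (f i j).eval x

/-- The value of the sum of the products at `x`. -/
noncomputable def value {k m : ℕ} (f : Fin k → Fin m → ℝ[X]) (x : ℝ) : ℝ := ∑ i, prodAt f i x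

/-- The Euclidean length of the vector of the products at `x`. -/
noncomputable def len {k m : ℕ} (f : Fin k → Fin m → ℝ[X]) (x : ℝ) : ℝ :=
  Real.sqrt (∑ i, prodAt f i x ^ 2)

/-- The sum of the positive products at `x`. -/
noncomputable def posPart {k m : ℕ} (f : Fin k → Fin m → ℝ[X]) (x : ℝ) : ℝ :=
  ∑ i, max (prodAt f i x) 0

/-- Minus the sum of the negative products at `x`. -/
noncomputable def negPart {k m : ℕ} (f : Fin k → Fin m → ℝ[X]) (x : ℝ) : ℝ :=
  ∑ i, max (-prodAt f i x) 0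

/-- For every `F = ∑ i, ∏ j, f i j` with a `(k, m, t)`-representation, not all products zero:
(1) `F / len` has total variation at most `74 k² m² t⁹` on the points of each half-line at which not
all products vanish;
(2) the integral over all real `y` of the number of real `x` with `len x ≠ 0` and `F x = y * len x` is
at most `148 k² m² t⁹`;
(3) for every `0 < ε ≤ 1` there is `0 < y < ε` such that the polynomial `F² - y² ∑ i, (∏ j, f i j)²`
has at most `300 k² m² t⁹ / ε` distinct real roots;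
(4) for every `0 < ε ≤ 1` there is `1 < l < 1 + ε` such that `posPart - l * negPart` has at most
`1800 k² m² t⁹ / ε` real zeros;
(5) the number of sign alternations of `F` on the positive half-line at points at which
`|F| ≥ δ * len` is at most `37 k² m² t⁹ / δ`. -/
theorem result (k m t : ℕ) (hm : 0 < m) (f : Fin k → Fin m → ℝ[X])
    (hf : ∀ i j, (f i j).support.card ≤ t) (h0 : ∃ i, ∏ j, f i j ≠ 0) :
    (eVariationOn (fun x => value f x / len f x) {x | 0 < x ∧ len f x ≠ 0} ≤
        ((74 * k ^ 2 * m ^ 2 * t ^ 9 : ℕ) : ℝ≥0∞) ∧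
      eVariationOn (fun x => value f x / len f x) {x | x < 0 ∧ len f x ≠ 0} ≤
        ((74 * k ^ 2 * m ^ 2 * t ^ 9 : ℕ) : ℝ≥0∞)) ∧
    ∫⁻ y : ℝ, ((({x : ℝ | len f x ≠ 0 ∧ value f x = y * len f x}.encard : ℕ∞)) : ℝ≥0∞) ≤
      ((148 * k ^ 2 * m ^ 2 * t ^ 9 : ℕ) : ℝ≥0∞) ∧
    (∀ ε : ℝ, 0 < ε → ε ≤ 1 → ∃ y ∈ Set.Ioo 0 ε,
      {x : ℝ | ((∑ i, ∏ j, f i j) ^ 2 - C (y ^ 2) * ∑ i, (∏ j, f i j) ^ 2).eval x = 0}.Finite ∧
      ({x : ℝ | ((∑ i, ∏ j, f i j) ^ 2 - C (y ^ 2) * ∑ i, (∏ j, f i j) ^ 2).eval x = 0}.ncard : ℝ) ≤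
        300 * k ^ 2 * m ^ 2 * t ^ 9 / ε) ∧
    (∀ ε : ℝ, 0 < ε → ε ≤ 1 → ∃ l : ℝ, 1 < l ∧ l < 1 + ε ∧
      {x : ℝ | posPart f x = l * negPart f x}.Finite ∧
      ({x : ℝ | posPart f x = l * negPart f x}.ncard : ℝ) ≤
        1800 * k ^ 2 * m ^ 2 * t ^ 9 / ε) ∧
    (∀ δ : ℝ, 0 < δ → ∀ (N : ℕ) (x : ℕ → ℝ), 0 < x 0 → (∀ r < N, x r < x (r + 1)) →
      (∀ r < N, (∑ i, ∏ j, f i j).eval (x r) * (∑ i, ∏ j, f i j).eval (x (r + 1)) < 0) →
      (∀ r ≤ N, δ * len f (x r) ≤ |(∑ i, ∏ j, f i j).eval (x r)|) →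
      (N : ℝ) ≤ 37 * k ^ 2 * m ^ 2 * t ^ 9 / δ) := by
  obtain ⟨hk1, ht1⟩ := Pool.Agent.W942.To.pos_of_h0 f hm hf h0
  have hFs : Pool.Agent.W942.To.Fs f = value f := rfl
  have hw2 : Pool.Agent.W942.To.w2 f = len f := rfl
  have heval : ∀ x, (∑ i, ∏ j, f i j).eval x = value f x := by
    intro x
    rw [eval_finsetSum]
    exact Finset.sum_congr rfl fun i _ => eval_prod _ _ _
  have hV2 : ∀ ε : ℝ, ε = 1 ∨ ε = -1 → eVariationOn (fun x => value f x / len f x)
      (Pool.Agent.W942.To.TT f ε) ≤ ((74 * k ^ 2 * m ^ 2 * t ^ 9 : ℕ) : ℝ≥0∞) :=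
    fun ε hε => Pool.Agent.W942.To.var2 f hm hf h0 hε
  have hV1 : ∀ ε : ℝ, ε = 1 ∨ ε = -1 → eVariationOn
      (fun x => value f x / Pool.Agent.W942.To.w1 f x)
      (Pool.Agent.W942.To.TT f ε) ≤ ((148 * k ^ 2 * m ^ 2 * t ^ 9 : ℕ) : ℝ≥0∞) :=
    fun ε hε => Pool.Agent.W942.To.var1 f hm hf h0 hε
  have hsmall : (1 : ℝ) ≤ k ^ 2 * m ^ 2 * t ^ 9 ∧ (m : ℝ) * t ≤ k ^ 2 * m ^ 2 * t ^ 9 := by
    have a1 : (1 : ℝ) ≤ k := by exact_mod_cast hk1
    have a2 : (1 : ℝ) ≤ m := by exact_mod_cast hm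
    have a3 : (1 : ℝ) ≤ t := by exact_mod_cast ht1
    have b1 : (1 : ℝ) ≤ (k : ℝ) ^ 2 := one_le_pow₀ a1
    have b2 : (1 : ℝ) ≤ (t : ℝ) ^ 8 := one_le_pow₀ a3
    have c2 : (m : ℝ) * t ≤ k ^ 2 * m ^ 2 * t ^ 9 := by
      calc (m : ℝ) * t = 1 * (m * 1) * (t * 1) := by ring
        _ ≤ (k : ℝ) ^ 2 * (m * m) * (t * t ^ 8) := by gcongr
        _ = _ := by ring
    refine ⟨?_, c2⟩
    nlinarith
  refine ⟨⟨?_, ?_⟩, ?_, ?_, ?_, ?_⟩
  · refine le_trans (le_of_eq ?_) (hV2 1 (Or.inl rfl))
    congr 1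
    unfold Pool.Agent.W942.To.TT
    simp only [one_mul]
    rfl
  · refine le_trans (le_of_eq ?_) (hV2 (-1) (Or.inr rfl))
    congr 1
    unfold Pool.Agent.W942.To.TT
    ext x
    simp only [Set.mem_ofPred_eq, neg_mul, one_mul, Left.neg_pos_iff]
    rfl
  · obtain ⟨a, ha, ha1, ha2⟩ := Pool.Agent.W942.To.majorant f (w := len f)
      (fun x => Iff.rfl) hV2
    refine (lintegral_mono ha1).trans (ha2.trans (Nat.cast_le.mpr (le_of_eq (by ring))))
  · intro ε hε hε1
    obtain ⟨y, hy, hfin, hcard⟩ := Pool.Agent.W942.To.exists_level f hf h0 (w := len f)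
      (fun x => Iff.rfl) hV2 hε hε1
    have hset : {x : ℝ | ((∑ i, ∏ j, f i j) ^ 2 - C (y ^ 2) *
        ∑ i, (∏ j, f i j) ^ 2).eval x = 0} =
        {x : ℝ | Pool.Agent.W942.To.Fs f x = y * len f x ∨
          Pool.Agent.W942.To.Fs f x = -y * len f x} := by
      ext x
      simp only [Set.mem_ofPred_eq]
      have e1 : ((∑ i, ∏ j, f i j) ^ 2 - C (y ^ 2) * ∑ i, (∏ j, f i j) ^ 2).eval x =
          value f x ^ 2 - (y * len f x) ^ 2 := by
        rw [eval_sub, eval_pow, heval, eval_mul, eval_C, mul_pow]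
        congr 2
        unfold len
        rw [Real.sq_sqrt (Finset.sum_nonneg fun _ _ => sq_nonneg _), eval_finsetSum]
        refine Finset.sum_congr rfl fun i _ => ?_
        rw [eval_pow, eval_prod]
        rfl
      rw [e1, sub_eq_zero, sq_eq_sq_iff_eq_or_eq_neg, neg_mul]
      rfl
    refine ⟨y, hy, ?_, ?_⟩
    · rw [hset]; exact hfin
    · rw [hset]
      refine hcard.trans ?_
      gcongr
      push_cast
      nlinarith [hsmall.1, hsmall.2]
  · intro ε hε hε1
    obtain ⟨y, hy, hfin, hcard⟩ := Pool.Agent.W942.To.exists_level f hf h0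
      (w := Pool.Agent.W942.To.w1 f)
      (fun x => by rw [Pool.Agent.W942.To.w1_zero_iff, Pool.Agent.W942.To.w2_zero_iff]) hV1
      (ε := ε / 3) (by positivity) (by linarith)
    have hy0 : 0 < y := hy.1
    have hy3 : y < ε / 3 := hy.2
    have h1y : 0 < 1 - y := by linarith
    have hsub : {x : ℝ | posPart f x = (1 + y) / (1 - y) * negPart f x} ⊆
        {x : ℝ | Pool.Agent.W942.To.Fs f x = y * Pool.Agent.W942.To.w1 f x ∨
          Pool.Agent.W942.To.Fs f x = -y * Pool.Agent.W942.To.w1 f x} := by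
      intro x hx
      simp only [Set.mem_ofPred_eq] at hx
      left
      have e1 : posPart f x - negPart f x = Pool.Agent.W942.To.Fs f x := by
        unfold posPart negPart Pool.Agent.W942.To.Fs
        rw [← Finset.sum_sub_distrib]
        refine Finset.sum_congr rfl fun i _ => ?_
        unfold prodAt
        rcases le_total 0 (∏ j, (f i j).eval x) with h | h
        · rw [max_eq_left h, max_eq_right (by linarith)]; ring
        · rw [max_eq_right h, max_eq_left (by linarith)]; ring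
      have e2 : posPart f x + negPart f x = Pool.Agent.W942.To.w1 f x := by
        unfold posPart negPart Pool.Agent.W942.To.w1
        rw [← Finset.sum_add_distrib]
        refine Finset.sum_congr rfl fun i _ => ?_
        unfold prodAt
        rcases le_total 0 (∏ j, (f i j).eval x) with h | h
        · rw [max_eq_left h, max_eq_right (by linarith), abs_of_nonneg h]; ring
        · rw [max_eq_right h, max_eq_left (by linarith), abs_of_nonpos h]; ring
      rw [← e1, ← e2]
      have e3 : (1 - y) * posPart f x = (1 + y) * negPart f x := by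
        rw [hx]; field_simp
      linarith
    refine ⟨(1 + y) / (1 - y), ?_, ?_, hfin.subset hsub, ?_⟩
    · rw [lt_div_iff₀ h1y]; linarith
    · rw [div_lt_iff₀ h1y]; nlinarith
    · calc ({x : ℝ | posPart f x = (1 + y) / (1 - y) * negPart f x}.ncard : ℝ) ≤ _ := by
            exact_mod_cast Set.ncard_le_ncard hsub hfin
        _ ≤ _ := hcard
        _ ≤ 1800 * k ^ 2 * m ^ 2 * t ^ 9 / ε := by
            rw [div_div_eq_mul_div]
            refine div_le_div_of_nonneg_right ?_ hε.le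
            push_cast
            nlinarith [hsmall.1, hsmall.2]
  · intro δ hδ N x hx0 hx hs hr
    rw [le_div_iff₀ hδ]
    refine Pool.Agent.W942.To.robust f hm hf hδ N x hx0 hx ?_ ?_
    · intro r hrN
      have := hs r hrN
      rwa [heval, heval] at this
    · intro r hrN
      have := hr r hrN
      rwa [heval] at this

end Pool.Agent.Results.MP_97f157_lc.OuterBalance
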