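import Pool.Agent.W942.TaG

/-!
# The real tau-conjecture for perturbed representations and for robust roots

Let `F = ∑ i < k, ∏ j < m, f i j` with real polynomials `f i j` with at most `t` monomials each.
`absEval p x` is the sum of the absolute values of the terms of `p` at `x`, and
`absRep f x = ∑ i, ∏ j, absEval (f i j) x` is the absolute version of the representation: all the
coefficients of all the polynomials `f i j` are replaced by their absolute values (and `x` by `|x|`).
For `x > 0` it is the value of a polynomial with a `(k, m, t)`-representation.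
-/

set_option autoImplicit false

namespace Pool.Agent.Results.MP_97f157_lc.RobustBalance

open Polynomial MeasureTheory
open scoped ENNReal

/-- The sum of the absolute values of the terms of the polynomial `p` at `x`. -/
noncomputable def absEval (p : ℝ[X]) (x : ℝ) : ℝ := ∑ e ∈ p.support, |p.coeff e * x ^ e|

/-- The absolute version of a sum of products, at `x`. -/
noncomputable def absRep {k m : ℕ} (f : Fin k → Fin m → ℝ[X]) (x : ℝ) : ℝ :=
  ∑ i, ∏ j, absEval (f i j) x

/-- The polynomial given by the representation. -/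
noncomputable def poly {k m : ℕ} (f : Fin k → Fin m → ℝ[X]) : ℝ[X] := ∑ i, ∏ j, f i j

/-- The nonzero real numbers `x` with `F x = y * absRep f x`. -/
def nonzeroRoots {k m : ℕ} (f : Fin k → Fin m → ℝ[X]) (y : ℝ) : Set ℝ :=
  {x : ℝ | x ≠ 0 ∧ (poly f).eval x = y * absRep f x}

/-- For every nonzero `F` with a `(k, m, t)`-representation (arbitrary signs):
(1) the quotient of `F` and of its absolute version has total variation at most `6 k² m t` on each of
the two half-lines;
(2) the integral over all real `y` of the number of nonzero real `x` with `F x = y * absRep f x` is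
at most `12 k² m t`;
(3) for every `ε > 0` there is `0 < y < ε` such that there are at most `12 k² m t / ε` such `x`;
(4) the number of sign alternations of `F` on the positive half-line at points at which
`|F| ≥ δ * absRep f` is at most `3 k² m t / δ`. -/
theorem result (k m t : ℕ) (hm : 0 < m) (f : Fin k → Fin m → ℝ[X])
    (hf : ∀ i j, (f i j).support.card ≤ t) (h0 : poly f ≠ 0) :
    (eVariationOn (fun x => (poly f).eval x / absRep f x) (Set.Ioi 0) ≤
        ((6 * k ^ 2 * m * t : ℕ) : ℝ≥0∞) ∧
      eVariationOn (fun x => (poly f).eval x / absRep f x) (Set.Iio 0) ≤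
        ((6 * k ^ 2 * m * t : ℕ) : ℝ≥0∞)) ∧
    ∫⁻ y : ℝ, (((nonzeroRoots f y).encard : ℕ∞) : ℝ≥0∞) ≤ ((12 * k ^ 2 * m * t : ℕ) : ℝ≥0∞) ∧
    (∀ ε : ℝ, 0 < ε → ∃ y ∈ Set.Ioo 0 ε, (nonzeroRoots f y).Finite ∧
      ((nonzeroRoots f y).ncard : ℝ) ≤ 12 * k ^ 2 * m * t / ε) ∧
    (∀ δ : ℝ, 0 < δ → ∀ (N : ℕ) (x : ℕ → ℝ), 0 < x 0 → (∀ r < N, x r < x (r + 1)) →
      (∀ r < N, (poly f).eval (x r) * (poly f).eval (x (r + 1)) < 0) →
      (∀ r ≤ N, δ * absRep f (x r) ≤ |(poly f).eval (x r)|) →
      (N : ℝ) ≤ 3 * k ^ 2 * m * t / δ) := by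
  have hq : (fun x => (poly f).eval x / absRep f x) =
      fun x => Pool.Agent.W942.Ta.FF f x / Pool.Agent.W942.Ta.WW f x := by
    funext x
    rw [← Pool.Agent.W942.Ta.eval_eq_FF]
    rfl
  refine ⟨⟨?_, ?_⟩, ?_, ?_, ?_⟩
  · rw [hq]
    exact Pool.Agent.W942.Ta.eVar_pos f hf hm
  · rw [hq]
    exact Pool.Agent.W942.Ta.eVar_neg f hf hm
  · exact Pool.Agent.W942.Ta.lint_roots f hf hm h0
  · intro ε hε
    exact Pool.Agent.W942.Ta.exists_level f hf hm h0 hε
  · intro δ hδ N x hx0 hx hs hr
    rw [le_div_iff₀ hδ]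
    exact Pool.Agent.W942.Ta.robust f hf hm hδ N x hx0 hx hs hr

end Pool.Agent.Results.MP_97f157_lc.RobustBalance
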