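import Pool.Agent.W942.SoF

/-!
# The real tau-conjecture for sums of squares, with one balance parameter

This is the case of products of two equal polynomials (`m = 2`), with a bound that is linear in the
number of exponents. Let `f = ∑ i < s, c i * (f i) ^ 2` be nonzero, with arbitrary real `c i` and real polynomials `f i`,
and let `n` be the number of exponents that occur in `f 0, ..., f (s - 1)` (so `n` is at most the
support-sum). `posPart c f` and `negPart c f` are the two halves of the sum:
`f = posPart - negPart` and both are nonnegative.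
-/

set_option autoImplicit false

namespace Pool.Agent.Results.MP_97f157_lc.SquaresBalance

open Polynomial MeasureTheory
open scoped ENNReal

/-- The part of `∑ i, c i * (f i) ^ 2` with positive coefficients, at `x`. -/
noncomputable def posPart {s : ℕ} (c : Fin s → ℝ) (f : Fin s → ℝ[X]) (x : ℝ) : ℝ :=
  ∑ i, max (c i) 0 * (f i).eval x ^ 2

/-- Minus the part of `∑ i, c i * (f i) ^ 2` with negative coefficients, at `x`. -/
noncomputable def negPart {s : ℕ} (c : Fin s → ℝ) (f : Fin s → ℝ[X]) (x : ℝ) : ℝ :=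
  ∑ i, max (-c i) 0 * (f i).eval x ^ 2

/-- The number of exponents that occur in the polynomials `f i`. -/
def unionSupport {s : ℕ} (f : Fin s → ℝ[X]) : ℕ :=
  ((Finset.univ : Finset (Fin s)).biUnion fun i => (f i).support).card

/-- Let `n = unionSupport f` and let `∑ i, c i * (f i) ^ 2` be nonzero.
(1) The number of distinct real roots of `cos² φ * posPart - sin² φ * negPart`, averaged over `φ` in
`(0, π / 2)`, is at most `6 n - 3`;
(2) for every `0 < ε ≤ 1` there is `1 < l < 1 + ε` such that `posPart - l * negPart` has at most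
`76 n / ε` distinct real roots;
(3) the number `N` of sign alternations of `∑ i, c i * (f i) ^ 2` on the real line at points at which
its absolute value is at least `δ * ∑ i, |c i| * (f i) ^ 2` is at most `π (2 n - 1) / δ`. -/
theorem result (s : ℕ) (c : Fin s → ℝ) (f : Fin s → ℝ[X])
    (h0 : ∑ i, C (c i) * f i ^ 2 ≠ 0) :
    ∫⁻ φ in Set.Ioo 0 (Real.pi / 2),
        ((({x : ℝ | Real.cos φ ^ 2 * posPart c f x = Real.sin φ ^ 2 * negPart c f x}.encard :
          ℕ∞)) : ℝ≥0∞) ≤
      ENNReal.ofReal (Real.pi / 2 * (6 * unionSupport f - 3)) ∧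
    (∀ ε : ℝ, 0 < ε → ε ≤ 1 → ∃ l : ℝ, 1 < l ∧ l < 1 + ε ∧
      {x : ℝ | posPart c f x = l * negPart c f x}.Finite ∧
      ({x : ℝ | posPart c f x = l * negPart c f x}.ncard : ℝ) ≤ 76 * unionSupport f / ε) ∧
    (∀ δ : ℝ, 0 < δ → ∀ (N : ℕ) (x : ℕ → ℝ), (∀ r < N, x r < x (r + 1)) →
      (∀ r < N, (∑ i, C (c i) * f i ^ 2).eval (x r) *
        (∑ i, C (c i) * f i ^ 2).eval (x (r + 1)) < 0) →
      (∀ r ≤ N, δ * (∑ i, |c i| * (f i).eval (x r) ^ 2) ≤
        |(∑ i, C (c i) * f i ^ 2).eval (x r)|) →
      (N : ℝ) ≤ Real.pi * (2 * unionSupport f - 1) / δ) := by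
  refine ⟨?_, ?_, ?_⟩
  · have h := Pool.Agent.W942.So.lint_rts (Pool.Agent.W942.So.pp c f) (Pool.Agent.W942.So.qq c f)
      (Pool.Agent.W942.So.supp_pp c f) (Pool.Agent.W942.So.supp_qq c f)
      (Pool.Agent.W942.So.ne_pq c f h0)
    unfold Pool.Agent.W942.So.rts at h
    simp_rw [Pool.Agent.W942.So.sq_pp, Pool.Agent.W942.So.sq_qq] at h
    exact h
  · intro ε hε hε1
    exact Pool.Agent.W942.So.exists_lambda c f h0 hε hε1
  · intro δ hδ N x hx hs hr
    rw [le_div_iff₀ hδ]
    refine Pool.Agent.W942.So.robust (Pool.Agent.W942.So.pp c f) (Pool.Agent.W942.So.qq c f)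
      (Pool.Agent.W942.So.supp_pp c f) (Pool.Agent.W942.So.supp_qq c f)
      (Pool.Agent.W942.So.card_ne c f h0) hδ N x hx ?_ ?_
    · intro r hrN
      have := hs r hrN
      rwa [Pool.Agent.W942.So.eval_total, Pool.Agent.W942.So.eval_total] at this
    · intro r hrN
      have := hr r hrN
      rwa [Pool.Agent.W942.So.eval_total, Pool.Agent.W942.So.abs_total] at this

end Pool.Agent.Results.MP_97f157_lc.SquaresBalance
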